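import Pool.Agent.Lib.MP_c03fb1_al.S.Alg

/-!
The witness algebras `V K n` for `E3`: they satisfy the identities of `E3 K` of degree at most
`n + 2` and fail one identity of degree `n + 3`.
-/

namespace Pool.Agent.Lib.MP_c03fb1_al.S

universe u

open Polynomial FreeNonUnitalNonAssocAlgebra TrivSqZeroExt

/-- The witness algebra: basis `s, v, e, z, u_0, u_1, ...` with nonzero products
`v e = u_0`, `u_i v = u_(i+1)`, `u_n s = z`. -/
@[ext] structure V (K : Type u) [Field K] (n : ℕ) where
  s : K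
  v : K
  e : K
  z : K
  p : K[X]

namespace V

variable {K : Type u} [Field K] {n : ℕ}

/-- Coordinates. -/
def equivProd : V K n ≃ K × K × K × K × K[X] where
  toFun x := (x.s, x.v, x.e, x.z, x.p)
  invFun q := ⟨q.1, q.2.1, q.2.2.1, q.2.2.2.1, q.2.2.2.2⟩
  left_inv _ := rfl
  right_inv _ := rfl

noncomputable instance : AddCommGroup (V K n) := equivProd.addCommGroup

@[simp] theorem add_s (x y : V K n) : (x + y).s = x.s + y.s := rfl
@[simp] theorem add_v (x y : V K n) : (x + y).v = x.v + y.v := rfl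
@[simp] theorem add_e (x y : V K n) : (x + y).e = x.e + y.e := rfl
@[simp] theorem add_z (x y : V K n) : (x + y).z = x.z + y.z := rfl
@[simp] theorem add_p (x y : V K n) : (x + y).p = x.p + y.p := rfl
@[simp] theorem sub_z (x y : V K n) : (x - y).z = x.z - y.z := rfl
@[simp] theorem zero_s : (0 : V K n).s = 0 := rfl
@[simp] theorem zero_v : (0 : V K n).v = 0 := rfl
@[simp] theorem zero_e : (0 : V K n).e = 0 := rfl
@[simp] theorem zero_z : (0 : V K n).z = 0 := rfl
@[simp] theorem zero_p : (0 : V K n).p = 0 := rfl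

noncomputable instance : Mul (V K n) :=
  ⟨fun x y => ⟨0, 0, 0, x.p.coeff n * y.s, C (x.v * y.e) + C y.v * X * x.p⟩⟩

@[simp] theorem mul_s (x y : V K n) : (x * y).s = 0 := rfl
@[simp] theorem mul_v (x y : V K n) : (x * y).v = 0 := rfl
@[simp] theorem mul_e (x y : V K n) : (x * y).e = 0 := rfl
@[simp] theorem mul_z (x y : V K n) : (x * y).z = x.p.coeff n * y.s := rfl
@[simp] theorem mul_p (x y : V K n) : (x * y).p = C (x.v * y.e) + C y.v * X * x.p := rfl

noncomputable instance : NonUnitalNonAssocRing (V K n) where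
  left_distrib x y z := by
    apply V.ext <;> simp <;> ring
  right_distrib x y z := by
    apply V.ext <;> simp <;> ring
  zero_mul x := by apply V.ext <;> simp
  mul_zero x := by apply V.ext <;> simp

noncomputable instance : Module K (V K n) := equivProd.module K

@[simp] theorem smul_s (k : K) (x : V K n) : (k • x).s = k * x.s := rfl
@[simp] theorem smul_v (k : K) (x : V K n) : (k • x).v = k * x.v := rfl
@[simp] theorem smul_e (k : K) (x : V K n) : (k • x).e = k * x.e := rfl
@[simp] theorem smul_z (k : K) (x : V K n) : (k • x).z = k * x.z := rfl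
@[simp] theorem smul_p (k : K) (x : V K n) : (k • x).p = k • x.p := rfl

instance : IsScalarTower K (V K n) (V K n) where
  smul_assoc k x y := by
    apply V.ext <;> simp [smul_eq_C_mul] <;> ring

instance : SMulCommClass K (V K n) (V K n) where
  smul_comm k x y := by
    apply V.ext <;> simp [smul_eq_C_mul] <;> ring

end V

variable {K : Type u} [Field K] {n : ℕ}

/-- Two linear maps that agree on the values of the monomials of `f` agree on the value of `f`. -/
theorem transfer {A B M : Type u} [NonUnitalNonAssocRing A] [Module K A] [IsScalarTower K A A]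
    [SMulCommClass K A A] [NonUnitalNonAssocRing B] [Module K B] [IsScalarTower K B B]
    [SMulCommClass K B B] [AddCommGroup M] [Module K M] (ψ₁ : A →ₗ[K] M) (ψ₂ : B →ₗ[K] M)
    (r : ℕ → A) (r' : ℕ → B) (f : FreeNonUnitalNonAssocAlgebra K ℕ) (hf : lift K r' f = 0)
    (h : ∀ m ∈ f.coeff.support, ψ₁ (FreeMagma.lift r m) = ψ₂ (FreeMagma.lift r' m)) :
    ψ₁ (lift K r f) = 0 := by
  have hz : ψ₁ (lift K r f) = ψ₂ (lift K r' f) := by
    rw [lift_eq_sum, lift_eq_sum, map_sum, map_sum]
    apply Finset.sum_congr rfl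
    intro m hm
    rw [map_smul, map_smul, h m hm]
  rw [hz, hf, map_zero]

/-- The substitution used for the coordinates `v, e, p`. -/
noncomputable def th1 (x : V K n) : E3 (DualNumber K[X]) :=
  ⟨inl (C x.v * X), inr (C x.e), inr (X * x.p)⟩

theorem inv1 (r : ℕ → V K n) (m : FreeMagma ℕ) :
    let x := FreeMagma.lift r m
    let y := FreeMagma.lift (th1 ∘ r) m
    y.p.fst = C x.v * X ∧ y.q = inr (C x.e) ∧ y.r = inr (X * x.p) := by
  induction m using FreeMagma.recOnMul with
  | ih1 i => simp [th1]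
  | ih2 m₁ m₂ h₁ h₂ =>
    obtain ⟨a1, b1, c1⟩ := h₁
    obtain ⟨a2, b2, c2⟩ := h₂
    simp only [map_mul] at *
    refine ⟨by simp [b1], ?_, ?_⟩
    · apply TrivSqZeroExt.ext <;> simp [b1, c2]
    · apply TrivSqZeroExt.ext
      · simp [b2, c1]
      · simp only [E3.mul_r, V.mul_p, b2, c1, snd_add, snd_mul, fst_inr, snd_inr, a1, a2,
          smul_eq_mul, op_smul_eq_mul, map_mul]
        ring

/-- The substitution used for the coordinates `s, z`. -/
noncomputable def th2 (x : V K n) : E3 (DualNumber (DualNumber K[X])) :=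
  ⟨inl (inr (C x.s)) + inr (inr (C x.z * X ^ n)), inr (inl x.p), inl (inl (C x.v * X))⟩

theorem inv2 (r : ℕ → V K n) (m : FreeMagma ℕ) :
    let x := FreeMagma.lift r m
    let y := FreeMagma.lift (th2 ∘ r) m
    y.p.fst = inr (C x.s) ∧ y.p.snd.fst = 0 ∧ y.q.fst = 0 ∧ y.r.fst.fst = C x.v * X ∧
      (∀ k, m.length ≤ k + 1 → y.q.snd.fst.coeff k = x.p.coeff k) ∧
      (m.length ≤ n + 2 → y.p.snd.snd.coeff n = x.z) := by
  induction m using FreeMagma.recOnMul with
  | ih1 i => simp [th2]
  | ih2 m₁ m₂ h₁ h₂ =>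
    obtain ⟨a1, b1, c1, d1, p1, z1⟩ := h₁
    obtain ⟨a2, b2, c2, d2, p2, z2⟩ := h₂
    have l1 := m₁.length_pos
    have l2 := m₂.length_pos
    simp only [map_mul, FreeMagma.length] at *
    refine ⟨by simp [c1], by simp [c1, a2], by simp [c1], by simp [c2, a2], ?_, ?_⟩
    · intro k hk
      obtain ⟨j, rfl⟩ : ∃ j, k = j + 1 := ⟨k - 1, by omega⟩
      have := p1 j (by omega)
      simp only [E3.mul_q, V.mul_p, snd_mul, c1, coeff_add, coeff_C_succ, zero_add, smul_eq_mul,
        op_smul_eq_mul, zero_mul, fst_mul, d2]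
      rw [mul_assoc, coeff_C_mul, coeff_X_mul, ← this, ← mul_assoc, coeff_mul_X, coeff_mul_C,
        mul_comm]
    · intro hk
      have := p1 n (by omega)
      simp only [E3.mul_p, V.mul_z, snd_mul, c1, a2, zero_add, smul_eq_mul, op_smul_eq_mul,
        zero_mul, fst_inr, snd_inr, mul_zero, add_zero, coeff_mul_C, this]

/-- Identities of `E3 K` of degree at most `n + 2` hold in `V K n`. -/
theorem witness_identity [Infinite K] (f : FreeNonUnitalNonAssocAlgebra K ℕ)
    (hf : ∀ r : ℕ → E3 K, lift K r f = 0) (hdeg : ∀ m ∈ f.coeff.support, m.length ≤ n + 2)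
    (r : ℕ → V K n) : lift K r f = 0 := by
  let a₁ : V K n →ₗ[K] K[X] × K[X] × K[X] :=
    { toFun := fun x => (C x.v * X, C x.e, X * x.p)
      map_add' := fun x y => by ext <;> simp [mul_add, add_mul]
      map_smul' := fun k x => by
        refine Prod.ext ?_ (Prod.ext ?_ ?_) <;> simp [smul_eq_C_mul] <;> ring }
  let b₁ : E3 (DualNumber K[X]) →ₗ[K] K[X] × K[X] × K[X] :=
    { toFun := fun y => (y.p.fst, y.q.snd, y.r.snd)
      map_add' := fun x y => by simp
      map_smul' := fun k x => by simp }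
  let a₂ : V K n →ₗ[K] K × K :=
    { toFun := fun x => (x.s, x.z)
      map_add' := fun x y => rfl
      map_smul' := fun k x => rfl }
  let b₂ : E3 (DualNumber (DualNumber K[X])) →ₗ[K] K × K :=
    { toFun := fun y => (y.p.fst.snd.coeff 0, y.p.snd.snd.coeff n)
      map_add' := fun x y => by simp
      map_smul' := fun k x => by simp }
  have h1 := transfer a₁ b₁ r (th1 ∘ r) f (identity_ext f hf _ _) fun m _ => by
    obtain ⟨h1, h2, h3⟩ := inv1 r m
    simp [a₁, b₁, h1, h2, h3]
  have h2 := transfer a₂ b₂ r (th2 ∘ r) f (identity_ext f hf _ _) fun m hm => by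
    obtain ⟨h1, -, -, -, -, h6⟩ := inv2 r m
    simp [a₂, b₂, h1, h6 (hdeg m hm)]
  simp only [a₁, a₂, LinearMap.coe_mk, AddHom.coe_mk, Prod.mk_eq_zero] at h1 h2
  apply V.ext
  · exact h2.1
  · simpa using h1.1
  · simpa using h1.2.1
  · exact h2.2
  · simpa using h1.2.2

/-- The monomial `x_1 x_2 x_1`. -/
def mA : FreeMagma ℕ := FreeMagma.of 1 * FreeMagma.of 2 * FreeMagma.of 1

/-- The monomial `x_1 x_1 x_2`. -/
def mB : FreeMagma ℕ := FreeMagma.of 1 * FreeMagma.of 1 * FreeMagma.of 2

/-- The identity `x_1 [R_2, R_1] R_1 ^ (N+1) [R_1, R_0]`. -/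
noncomputable def bad (K : Type u) [Field K] (N : ℕ) : FreeNonUnitalNonAssocAlgebra K ℕ :=
  (MonoidAlgebra.single (rpow mA (N + 2) * FreeMagma.of 0) (1 : K) -
      MonoidAlgebra.single (rpow mB (N + 2) * FreeMagma.of 0) (1 : K)) -
    (MonoidAlgebra.single (rpow mA (N + 1) * FreeMagma.of 0 * FreeMagma.of 1) (1 : K) -
      MonoidAlgebra.single (rpow mB (N + 1) * FreeMagma.of 0 * FreeMagma.of 1) (1 : K))

theorem rpow_q (r : ℕ → E3 K) (k : ℕ) :
    (FreeMagma.lift r (rpow mA k)).q = (FreeMagma.lift r (rpow mB k)).q := by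
  induction k with
  | zero => simp [rpow, mA, mB]; ring
  | succ k ih => simp [rpow, ih]

theorem bad_E3 (N : ℕ) (r : ℕ → E3 K) : lift K r (bad K N) = 0 := by
  have h := rpow_q r N
  rw [bad, map_sub, map_sub, map_sub, lift_single, lift_single, lift_single, lift_single]
  apply E3.ext
  · simp [rpow, h]
  · simp [rpow, h]
  · simp [rpow, h]
    ring

/-- The substitution `x_0 = s`, `x_1 = v`, `x_2 = e`. -/
noncomputable def subst (K : Type u) [Field K] (n : ℕ) : ℕ → V K n
  | 0 => ⟨1, 0, 0, 0, 0⟩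
  | 1 => ⟨0, 1, 0, 0, 0⟩
  | _ => ⟨0, 0, 1, 0, 0⟩

theorem rpow_V (m : FreeMagma ℕ) (k : ℕ) :
    (FreeMagma.lift (subst K n) (rpow m k)).p = X ^ k * (FreeMagma.lift (subst K n) m).p := by
  induction k with
  | zero => simp [rpow]
  | succ k ih => simp [rpow, ih, subst, pow_succ]; ring

theorem bad_V (N : ℕ) : lift K (subst K (N + 3)) (bad K N) ≠ 0 := by
  rw [bad, map_sub, map_sub, map_sub, lift_single, lift_single, lift_single, lift_single]
  intro h
  have := congrArg V.z h
  simp [rpow_V, subst, mA, mB, ← pow_succ] at this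

end Pool.Agent.Lib.MP_c03fb1_al.S
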