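import Pool.Agent.Lib.MP_c03fb1_al.Proof

/-!
The commutative three-dimensional algebra `C3 S` (basis `e0, e1, e2`, nonzero products
`e0 e0 = e1`, `e0 e2 = e2 e0 = e2`, `e1 e2 = e2 e1 = e1`) over a commutative ring `S`.
-/

namespace Pool.Agent.Lib.MP_c03fb1_al.S

universe u

open FreeNonUnitalNonAssocAlgebra

/-- The three-dimensional algebra, in coordinates. -/
@[ext] structure C3 (S : Type u) where
  p : S
  q : S
  r : S

namespace C3

variable {S : Type u}

/-- Coordinates. -/
def equivProd : C3 S ≃ S × S × S where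
  toFun x := (x.p, x.q, x.r)
  invFun p := ⟨p.1, p.2.1, p.2.2⟩
  left_inv _ := rfl
  right_inv _ := rfl

variable [CommRing S]

instance : AddCommGroup (C3 S) := equivProd.addCommGroup

@[simp] theorem add_p (x y : C3 S) : (x + y).p = x.p + y.p := rfl
@[simp] theorem add_q (x y : C3 S) : (x + y).q = x.q + y.q := rfl
@[simp] theorem add_r (x y : C3 S) : (x + y).r = x.r + y.r := rfl
@[simp] theorem sub_p (x y : C3 S) : (x - y).p = x.p - y.p := rfl
@[simp] theorem sub_q (x y : C3 S) : (x - y).q = x.q - y.q := rfl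
@[simp] theorem sub_r (x y : C3 S) : (x - y).r = x.r - y.r := rfl
@[simp] theorem zero_p : (0 : C3 S).p = 0 := rfl
@[simp] theorem zero_q : (0 : C3 S).q = 0 := rfl
@[simp] theorem zero_r : (0 : C3 S).r = 0 := rfl

instance : Mul (C3 S) :=
  ⟨fun x y => ⟨0, x.p * y.p + x.q * y.r + x.r * y.q, x.p * y.r + x.r * y.p⟩⟩

@[simp] theorem mul_p (x y : C3 S) : (x * y).p = 0 := rfl
@[simp] theorem mul_q (x y : C3 S) : (x * y).q = x.p * y.p + x.q * y.r + x.r * y.q := rfl
@[simp] theorem mul_r (x y : C3 S) : (x * y).r = x.p * y.r + x.r * y.p := rfl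

instance : NonUnitalNonAssocRing (C3 S) where
  left_distrib x y z := by ext <;> simp <;> ring
  right_distrib x y z := by ext <;> simp <;> ring
  zero_mul x := by ext <;> simp
  mul_zero x := by ext <;> simp

section field

variable {K : Type u} [Field K] [Algebra K S]

instance : Module K (C3 S) := equivProd.module K

@[simp] theorem smul_p (k : K) (x : C3 S) : (k • x).p = k • x.p := rfl
@[simp] theorem smul_q (k : K) (x : C3 S) : (k • x).q = k • x.q := rfl
@[simp] theorem smul_r (k : K) (x : C3 S) : (k • x).r = k • x.r := rfl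

instance : IsScalarTower K (C3 S) (C3 S) where
  smul_assoc k x y := by ext <;> simp [smul_add]

instance : SMulCommClass K (C3 S) (C3 S) where
  smul_comm k x y := by ext <;> simp [smul_add]

/-- An algebra map of coefficient rings induces an algebra map. -/
def mapHom {T : Type u} [CommRing T] [Algebra K T] (φ : S →ₐ[K] T) : C3 S →ₙₐ[K] C3 T where
  toFun x := ⟨φ x.p, φ x.q, φ x.r⟩
  map_smul' k x := by ext <;> simp
  map_zero' := by ext <;> simp
  map_add' x y := by ext <;> simp
  map_mul' x y := by ext <;> simp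

end field

theorem finrank_eq (K : Type u) [Field K] : Module.finrank K (C3 K) = 3 := by
  have e : C3 K ≃ₗ[K] K × K × K := equivProd.linearEquiv K
  rw [e.finrank_eq]
  simp

theorem mul_comm' (x y : C3 S) : x * y = y * x := by
  ext <;> simp <;> ring

end C3

/-- Over an infinite field, identities of `C3 K` hold in `C3 S` for each commutative algebra `S`. -/
theorem identity_extC {K : Type u} [Field K] [Infinite K] (f : FreeNonUnitalNonAssocAlgebra K ℕ)
    (hf : ∀ r : ℕ → C3 K, lift K r f = 0) (S : Type u) [CommRing S] [Algebra K S]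
    (r : ℕ → C3 S) : lift K r f = 0 := by
  let g : ℕ → C3 (MvPolynomial (ℕ × Fin 3) K) := fun i =>
    ⟨MvPolynomial.X (i, 0), MvPolynomial.X (i, 1), MvPolynomial.X (i, 2)⟩
  have hg : lift K g f = 0 := by
    have key : ∀ x : ℕ × Fin 3 → K,
        C3.mapHom (MvPolynomial.aeval x : MvPolynomial (ℕ × Fin 3) K →ₐ[K] K) (lift K g f) = 0 := by
      intro x
      rw [hom_lift]
      exact hf _
    apply C3.ext
    · apply MvPolynomial.funext
      intro x
      have := congrArg C3.p (key x)
      simpa [C3.mapHom, MvPolynomial.aeval_eq_eval] using this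
    · apply MvPolynomial.funext
      intro x
      have := congrArg C3.q (key x)
      simpa [C3.mapHom, MvPolynomial.aeval_eq_eval] using this
    · apply MvPolynomial.funext
      intro x
      have := congrArg C3.r (key x)
      simpa [C3.mapHom, MvPolynomial.aeval_eq_eval] using this
  let x : ℕ × Fin 3 → S := fun q => ![(r q.1).p, (r q.1).q, (r q.1).r] q.2
  have h2 := hom_lift
    (C3.mapHom (MvPolynomial.aeval x : MvPolynomial (ℕ × Fin 3) K →ₐ[K] S)) g f
  rw [hg, map_zero] at h2
  have h3 : (C3.mapHom (MvPolynomial.aeval x : MvPolynomial (ℕ × Fin 3) K →ₐ[K] S)) ∘ g = r := by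
    funext i
    apply C3.ext <;> simp [C3.mapHom, g, x]
  rw [h3] at h2
  exact h2.symm

end Pool.Agent.Lib.MP_c03fb1_al.S
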