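import Pool.Agent.Lib.MP_c03fb1_al.S.Wit
import Pool.Agent.Lib.MP_c03fb1_al.S.CAlg

/-!
The witness algebras `U K n` for `C3`: they satisfy the identities of `C3 K` of degree at most
`n + 2` and fail one identity of degree `n + 3`.
-/

namespace Pool.Agent.Lib.MP_c03fb1_al.S

universe u

open Polynomial FreeNonUnitalNonAssocAlgebra TrivSqZeroExt

/-- The witness algebra: basis `s, v, e, z, u_0, u_1, ...` with nonzero products
`e e = u_0`, `u_i v = v u_i = u_(i+1)`, `u_n s = s u_n = z`. -/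
@[ext] structure U (K : Type u) [Field K] (n : ℕ) where
  s : K
  v : K
  e : K
  z : K
  p : K[X]

namespace U

variable {K : Type u} [Field K] {n : ℕ}

/-- Coordinates. -/
def equivProd : U K n ≃ K × K × K × K × K[X] where
  toFun x := (x.s, x.v, x.e, x.z, x.p)
  invFun q := ⟨q.1, q.2.1, q.2.2.1, q.2.2.2.1, q.2.2.2.2⟩
  left_inv _ := rfl
  right_inv _ := rfl

noncomputable instance : AddCommGroup (U K n) := equivProd.addCommGroup

@[simp] theorem add_s (x y : U K n) : (x + y).s = x.s + y.s := rfl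
@[simp] theorem add_v (x y : U K n) : (x + y).v = x.v + y.v := rfl
@[simp] theorem add_e (x y : U K n) : (x + y).e = x.e + y.e := rfl
@[simp] theorem add_z (x y : U K n) : (x + y).z = x.z + y.z := rfl
@[simp] theorem add_p (x y : U K n) : (x + y).p = x.p + y.p := rfl
@[simp] theorem sub_z (x y : U K n) : (x - y).z = x.z - y.z := rfl
@[simp] theorem zero_s : (0 : U K n).s = 0 := rfl
@[simp] theorem zero_v : (0 : U K n).v = 0 := rfl
@[simp] theorem zero_e : (0 : U K n).e = 0 := rfl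
@[simp] theorem zero_z : (0 : U K n).z = 0 := rfl
@[simp] theorem zero_p : (0 : U K n).p = 0 := rfl

noncomputable instance : Mul (U K n) :=
  ⟨fun x y => ⟨0, 0, 0, x.p.coeff n * y.s + x.s * y.p.coeff n,
    C (x.e * y.e) + (C y.v * X * x.p + C x.v * X * y.p)⟩⟩

@[simp] theorem mul_s (x y : U K n) : (x * y).s = 0 := rfl
@[simp] theorem mul_v (x y : U K n) : (x * y).v = 0 := rfl
@[simp] theorem mul_e (x y : U K n) : (x * y).e = 0 := rfl
@[simp] theorem mul_z (x y : U K n) : (x * y).z = x.p.coeff n * y.s + x.s * y.p.coeff n := rfl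
@[simp] theorem mul_p (x y : U K n) :
    (x * y).p = C (x.e * y.e) + (C y.v * X * x.p + C x.v * X * y.p) := rfl

noncomputable instance : NonUnitalNonAssocRing (U K n) where
  left_distrib x y z := by
    apply U.ext <;> simp <;> ring
  right_distrib x y z := by
    apply U.ext <;> simp <;> ring
  zero_mul x := by apply U.ext <;> simp
  mul_zero x := by apply U.ext <;> simp

noncomputable instance : Module K (U K n) := equivProd.module K

@[simp] theorem smul_s (k : K) (x : U K n) : (k • x).s = k * x.s := rfl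
@[simp] theorem smul_v (k : K) (x : U K n) : (k • x).v = k * x.v := rfl
@[simp] theorem smul_e (k : K) (x : U K n) : (k • x).e = k * x.e := rfl
@[simp] theorem smul_z (k : K) (x : U K n) : (k • x).z = k * x.z := rfl
@[simp] theorem smul_p (k : K) (x : U K n) : (k • x).p = k • x.p := rfl

instance : IsScalarTower K (U K n) (U K n) where
  smul_assoc k x y := by
    apply U.ext <;> simp [smul_eq_C_mul] <;> ring

instance : SMulCommClass K (U K n) (U K n) where
  smul_comm k x y := by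
    apply U.ext <;> simp [smul_eq_C_mul] <;> ring

end U

variable {K : Type u} [Field K] {n : ℕ}

/-- The substitution used for the coordinates `v, e, p`. -/
noncomputable def ph1 (x : U K n) : C3 K[X][X] :=
  ⟨X * C (C x.e), X ^ 2 * C x.p, C (C x.v * X)⟩

theorem cinv1 (r : ℕ → U K n) (m : FreeMagma ℕ) :
    let x := FreeMagma.lift r m
    let y := FreeMagma.lift (ph1 ∘ r) m
    y.p = X * C (C x.e) ∧ y.r.coeff 0 = C x.v * X ∧ ∃ Q, y.q = X ^ 2 * Q ∧ Q.coeff 0 = x.p := by
  induction m using FreeMagma.recOnMul with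
  | ih1 i => exact ⟨rfl, by simp [ph1], C (r i).p, rfl, by simp⟩
  | ih2 m₁ m₂ h₁ h₂ =>
    obtain ⟨a1, b1, Q1, c1, d1⟩ := h₁
    obtain ⟨a2, b2, Q2, c2, d2⟩ := h₂
    simp only [map_mul] at *
    refine ⟨by simp, by simp [a1, a2], C (C (FreeMagma.lift r m₁).e) * C (C (FreeMagma.lift r m₂).e) +
      Q1 * (FreeMagma.lift (ph1 ∘ r) m₂).r + (FreeMagma.lift (ph1 ∘ r) m₁).r * Q2, ?_, ?_⟩
    · rw [C3.mul_q, a1, a2, c1, c2]
      ring
    · simp only [coeff_add, mul_coeff_zero, coeff_C_zero, b1, b2, d1, d2, U.mul_p, map_mul]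
      ring

/-- The substitution used for the coordinates `s, z`. -/
noncomputable def ph2 (x : U K n) : C3 (DualNumber (DualNumber K[X])) :=
  ⟨inl (inl (C x.v * X)), inr (inl (C x.s) + inr (C x.z * X ^ n)), inl (inr x.p)⟩

theorem cinv2 (r : ℕ → U K n) (m : FreeMagma ℕ) :
    let x := FreeMagma.lift r m
    let y := FreeMagma.lift (ph2 ∘ r) m
    y.p = inl (inl (C x.v * X)) ∧ y.r.snd = 0 ∧ y.r.fst.fst = 0 ∧ y.q.snd.fst = C x.s ∧
      (∀ k, m.length ≤ k + 1 → y.r.fst.snd.coeff k = x.p.coeff k) ∧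
      (m.length ≤ n + 2 → y.q.snd.snd.coeff n = x.z) := by
  induction m using FreeMagma.recOnMul with
  | ih1 i => simp [ph2]
  | ih2 m₁ m₂ h₁ h₂ =>
    obtain ⟨a1, b1, c1, d1, p1, z1⟩ := h₁
    obtain ⟨a2, b2, c2, d2, p2, z2⟩ := h₂
    have l1 := m₁.length_pos
    have l2 := m₂.length_pos
    simp only [map_mul, FreeMagma.length] at *
    refine ⟨by simp, by simp [a1, a2, b1, b2], by simp [a1, a2, c1, c2],
      by simp [a1, a2, b1, b2, c1, c2], ?_, ?_⟩
    · intro k hk
      obtain ⟨j, rfl⟩ : ∃ j, k = j + 1 := ⟨k - 1, by omega⟩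
      have e1 := p1 j (by omega)
      have e2 := p2 j (by omega)
      have e3 : ∀ (c : K) (P : K[X]), (C c * X * P).coeff (j + 1) = c * P.coeff j := by
        intro c P
        rw [mul_assoc, coeff_C_mul, coeff_X_mul]
      have e4 : ((FreeMagma.lift (ph2 ∘ r) m₁ * FreeMagma.lift (ph2 ∘ r) m₂).r).fst.snd =
          C (FreeMagma.lift r m₂).v * X * (FreeMagma.lift (ph2 ∘ r) m₁).r.fst.snd +
            C (FreeMagma.lift r m₁).v * X * (FreeMagma.lift (ph2 ∘ r) m₂).r.fst.snd := by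
        simp only [C3.mul_r, a1, a2, fst_add, fst_mul, fst_inl, snd_add, snd_mul, snd_inl,
          smul_eq_mul, op_smul_eq_mul]
        ring
      rw [e4, U.mul_p, coeff_add, coeff_add, coeff_add, coeff_C_succ, e3, e3, e3, e3, e1, e2,
        zero_add]
    · intro hk
      have e1 := p1 n (by omega)
      have e2 := p2 n (by omega)
      have e4 : ((FreeMagma.lift (ph2 ∘ r) m₁ * FreeMagma.lift (ph2 ∘ r) m₂).q).snd.snd =
          (FreeMagma.lift (ph2 ∘ r) m₁).r.fst.snd * C (FreeMagma.lift r m₂).s +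
            C (FreeMagma.lift r m₁).s * (FreeMagma.lift (ph2 ∘ r) m₂).r.fst.snd := by
        simp only [C3.mul_q, a1, a2, b1, b2, c1, c2, d1, d2, fst_inl, snd_add, snd_mul, snd_inl,
          smul_eq_mul, op_smul_eq_mul, mul_zero, zero_mul, snd_zero]
        ring
      rw [e4, U.mul_z, coeff_add, coeff_mul_C, coeff_C_mul, e1, e2]

/-- Identities of `C3 K` of degree at most `n + 2` hold in `U K n`. -/
theorem witness_identityC [Infinite K] (f : FreeNonUnitalNonAssocAlgebra K ℕ)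
    (hf : ∀ r : ℕ → C3 K, lift K r f = 0) (hdeg : ∀ m ∈ f.coeff.support, m.length ≤ n + 2)
    (r : ℕ → U K n) : lift K r f = 0 := by
  let a₁ : U K n →ₗ[K] K[X] × K[X] × K[X] :=
    { toFun := fun x => (C x.v * X, C x.e, x.p)
      map_add' := fun x y => by ext <;> simp [add_mul]
      map_smul' := fun k x => by
        refine Prod.ext ?_ (Prod.ext ?_ ?_) <;> simp [smul_eq_C_mul, mul_assoc] }
  let b₁ : C3 K[X][X] →ₗ[K] K[X] × K[X] × K[X] :=
    { toFun := fun y => (y.r.coeff 0, y.p.coeff 1, y.q.coeff 2)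
      map_add' := fun x y => by simp
      map_smul' := fun k x => by simp }
  let a₂ : U K n →ₗ[K] K × K :=
    { toFun := fun x => (x.s, x.z)
      map_add' := fun x y => rfl
      map_smul' := fun k x => rfl }
  let b₂ : C3 (DualNumber (DualNumber K[X])) →ₗ[K] K × K :=
    { toFun := fun y => (y.q.snd.fst.coeff 0, y.q.snd.snd.coeff n)
      map_add' := fun x y => by simp
      map_smul' := fun k x => by simp }
  have h1 := transfer a₁ b₁ r (ph1 ∘ r) f (identity_extC f hf _ _) fun m _ => by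
    obtain ⟨h1, h2, Q, h3, h4⟩ := cinv1 r m
    have h5 : (X ^ 2 * Q).coeff 2 = Q.coeff 0 := coeff_X_pow_mul Q 2 0
    simp [a₁, b₁, h1, h2, h3, h4, h5]
  have h2 := transfer a₂ b₂ r (ph2 ∘ r) f (identity_extC f hf _ _) fun m hm => by
    obtain ⟨-, -, -, h4, -, h6⟩ := cinv2 r m
    simp [a₂, b₂, h4, h6 (hdeg m hm)]
  simp only [a₁, a₂, LinearMap.coe_mk, AddHom.coe_mk, Prod.mk_eq_zero] at h1 h2
  apply U.ext
  · exact h2.1
  · simpa using h1.1
  · simpa using h1.2.1
  · exact h2.2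
  · simpa using h1.2.2

/-- The monomial `x_2 x_2 x_1 x_1`. -/
def n1 : FreeMagma ℕ := FreeMagma.of 2 * FreeMagma.of 2 * FreeMagma.of 1 * FreeMagma.of 1

/-- The monomial `x_2 x_1 x_2 x_1`. -/
def n2 : FreeMagma ℕ := FreeMagma.of 2 * FreeMagma.of 1 * FreeMagma.of 2 * FreeMagma.of 1

/-- The monomial `x_1 x_1 x_2 x_2`. -/
def n3 : FreeMagma ℕ := FreeMagma.of 1 * FreeMagma.of 1 * FreeMagma.of 2 * FreeMagma.of 2

/-- The element `m R_1 ^ N [R_1, R_0]`. -/
noncomputable def cm (K : Type u) [Field K] (m : FreeMagma ℕ) (N : ℕ) :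
    FreeNonUnitalNonAssocAlgebra K ℕ :=
  MonoidAlgebra.single (rpow m (N + 1) * FreeMagma.of 0) (1 : K) -
    MonoidAlgebra.single (rpow m N * FreeMagma.of 0 * FreeMagma.of 1) (1 : K)

/-- The identity `(n1 - 2 n2 + n3) R_1 ^ N [R_1, R_0]`. -/
noncomputable def badC (K : Type u) [Field K] (N : ℕ) : FreeNonUnitalNonAssocAlgebra K ℕ :=
  cm K n1 N - cm K n2 N - cm K n2 N + cm K n3 N

theorem rpow_p (r : ℕ → C3 K) (a b : FreeMagma ℕ) (k : ℕ) :
    (FreeMagma.lift r (rpow (a * b) k)).p = 0 := by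
  cases k <;> simp [rpow]

theorem rpow_r (r : ℕ → C3 K) (a b : FreeMagma ℕ) (k : ℕ) :
    (FreeMagma.lift r (rpow (a * b) k)).r = (FreeMagma.lift r (a * b)).r * (r 1).p ^ k := by
  induction k with
  | zero => simp [rpow]
  | succ k ih =>
    rw [rpow, map_mul, C3.mul_r, rpow_p, ih]
    simp [pow_succ, mul_assoc]

theorem lift_cm (r : ℕ → C3 K) (a b : FreeMagma ℕ) (N : ℕ) :
    lift K r (cm K (a * b) N) = ⟨0, (FreeMagma.lift r (a * b)).r * (r 1).p ^ N *
      ((r 1).q * (r 0).r + (r 1).p * (r 0).q - (r 0).q * (r 1).r - (r 0).p * (r 1).q), 0⟩ := by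
  have h1 := rpow_p r a b N
  have h2 := rpow_r r a b N
  rw [cm, map_sub, lift_single, lift_single, rpow]
  simp only [map_mul, FreeMagma.lift_of] at *
  apply C3.ext
  · simp
  · simp only [C3.sub_q, C3.mul_q, C3.mul_p, C3.mul_r, h1, h2]
    ring
  · simp only [C3.sub_r, C3.mul_p, C3.mul_r, h1, h2]
    ring

theorem bad_C3 (N : ℕ) (r : ℕ → C3 K) : lift K r (badC K N) = 0 := by
  rw [badC, map_add, map_sub, map_sub, n1, n2, n3, lift_cm, lift_cm, lift_cm]
  apply C3.ext
  · simp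
  · simp
    ring
  · simp

/-- The substitution `x_0 = s`, `x_1 = v`, `x_2 = e`. -/
noncomputable def substC (K : Type u) [Field K] (n : ℕ) : ℕ → U K n
  | 0 => ⟨1, 0, 0, 0, 0⟩
  | 1 => ⟨0, 1, 0, 0, 0⟩
  | _ => ⟨0, 0, 1, 0, 0⟩

theorem rpow_U (m : FreeMagma ℕ) (k : ℕ) :
    (FreeMagma.lift (substC K n) (rpow m k)).p = X ^ k * (FreeMagma.lift (substC K n) m).p := by
  induction k with
  | zero => simp [rpow]
  | succ k ih => simp [rpow, ih, substC, pow_succ]; ring

theorem lift_cm_U (m : FreeMagma ℕ) (N : ℕ) :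
    (lift K (substC K n) (cm K m N)).z =
      (X ^ (N + 1) * (FreeMagma.lift (substC K n) m).p).coeff n := by
  rw [cm, map_sub, lift_single, lift_single, ← rpow_U]
  simp [substC]

theorem bad_U (N : ℕ) : lift K (substC K (N + 3)) (badC K N) ≠ 0 := by
  rw [badC, map_add, map_sub, map_sub]
  intro h
  have := congrArg U.z h
  simp only [U.add_z, U.sub_z, lift_cm_U] at this
  simp [substC, n1, n2, n3, ← mul_assoc, ← pow_succ] at this

end Pool.Agent.Lib.MP_c03fb1_al.S
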