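import Pool.Agent.Lib.MP_c03fb1_al.Proof

/-!
The three-dimensional algebra `E3 S` (basis `e0, e1, e2`, nonzero products
`e0 e1 = e2`, `e1 e0 = e0`, `e1 e2 = e1`, `e2 e0 = e2`) over a commutative ring `S`;
it is central simple over a field.
-/

namespace Pool.Agent.Lib.MP_c03fb1_al.S

universe u

open FreeNonUnitalNonAssocAlgebra

/-- The three-dimensional algebra, in coordinates. -/
@[ext] structure E3 (S : Type u) where
  p : S
  q : S
  r : S

namespace E3

variable {S : Type u}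

/-- Coordinates. -/
def equivProd : E3 S ≃ S × S × S where
  toFun x := (x.p, x.q, x.r)
  invFun p := ⟨p.1, p.2.1, p.2.2⟩
  left_inv _ := rfl
  right_inv _ := rfl

variable [CommRing S]

instance : AddCommGroup (E3 S) := equivProd.addCommGroup

@[simp] theorem add_p (x y : E3 S) : (x + y).p = x.p + y.p := rfl
@[simp] theorem add_q (x y : E3 S) : (x + y).q = x.q + y.q := rfl
@[simp] theorem add_r (x y : E3 S) : (x + y).r = x.r + y.r := rfl
@[simp] theorem sub_p (x y : E3 S) : (x - y).p = x.p - y.p := rfl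
@[simp] theorem sub_q (x y : E3 S) : (x - y).q = x.q - y.q := rfl
@[simp] theorem sub_r (x y : E3 S) : (x - y).r = x.r - y.r := rfl
@[simp] theorem zero_p : (0 : E3 S).p = 0 := rfl
@[simp] theorem zero_q : (0 : E3 S).q = 0 := rfl
@[simp] theorem zero_r : (0 : E3 S).r = 0 := rfl

instance : Mul (E3 S) := ⟨fun x y => ⟨x.q * y.p, x.q * y.r, x.p * y.q + x.r * y.p⟩⟩

@[simp] theorem mul_p (x y : E3 S) : (x * y).p = x.q * y.p := rfl
@[simp] theorem mul_q (x y : E3 S) : (x * y).q = x.q * y.r := rfl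
@[simp] theorem mul_r (x y : E3 S) : (x * y).r = x.p * y.q + x.r * y.p := rfl

instance : NonUnitalNonAssocRing (E3 S) where
  left_distrib x y z := by ext <;> simp <;> ring
  right_distrib x y z := by ext <;> simp <;> ring
  zero_mul x := by ext <;> simp
  mul_zero x := by ext <;> simp

section field

variable {K : Type u} [Field K] [Algebra K S]

instance : Module K (E3 S) := equivProd.module K

@[simp] theorem smul_p (k : K) (x : E3 S) : (k • x).p = k • x.p := rfl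
@[simp] theorem smul_q (k : K) (x : E3 S) : (k • x).q = k • x.q := rfl
@[simp] theorem smul_r (k : K) (x : E3 S) : (k • x).r = k • x.r := rfl

instance : IsScalarTower K (E3 S) (E3 S) where
  smul_assoc k x y := by ext <;> simp

instance : SMulCommClass K (E3 S) (E3 S) where
  smul_comm k x y := by ext <;> simp

/-- An algebra map of coefficient rings induces an algebra map. -/
def mapHom {T : Type u} [CommRing T] [Algebra K T] (φ : S →ₐ[K] T) : E3 S →ₙₐ[K] E3 T where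
  toFun x := ⟨φ x.p, φ x.q, φ x.r⟩
  map_smul' k x := by ext <;> simp
  map_zero' := by ext <;> simp
  map_add' x y := by ext <;> simp
  map_mul' x y := by ext <;> simp

end field

theorem finrank_eq (K : Type u) [Field K] : Module.finrank K (E3 K) = 3 := by
  have e : E3 K ≃ₗ[K] K × K × K := equivProd.linearEquiv K
  rw [e.finrank_eq]
  simp

variable {K : Type u} [Field K]

theorem top_of_q (I : TwoSidedIdeal (E3 K)) (x : E3 K) (hx : x ∈ I) (hq : x.q ≠ 0) : I = ⊤ := by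
  have h1 : (⟨0, 1, 0⟩ : E3 K) ∈ I := by
    have := I.mul_mem_right x ⟨0, 0, x.q⁻¹⟩ hx
    have e : x * ⟨0, 0, x.q⁻¹⟩ = (⟨0, 1, 0⟩ : E3 K) := by ext <;> simp [hq]
    rwa [e] at this
  refine eq_top_iff.2 fun y _ => ?_
  have e : y = (⟨0, 1, 0⟩ : E3 K) * ⟨y.p, 0, y.q⟩ + (⟨y.r, 0, 0⟩ : E3 K) * ⟨0, 1, 0⟩ := by
    ext <;> simp
  rw [e]
  exact I.add_mem (I.mul_mem_right _ _ h1) (I.mul_mem_left _ _ h1)

theorem top_of_r (I : TwoSidedIdeal (E3 K)) (x : E3 K) (hx : x ∈ I) (hr : x.r ≠ 0) : I = ⊤ :=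
  top_of_q I _ (I.mul_mem_left ⟨0, 1, 0⟩ x hx) (by simpa using hr)

theorem top_of_p (I : TwoSidedIdeal (E3 K)) (x : E3 K) (hx : x ∈ I) (hp : x.p ≠ 0) : I = ⊤ :=
  top_of_r I _ (I.mul_mem_right x ⟨0, 1, 0⟩ hx) (by simpa using hp)

theorem isSimpleRing (K : Type u) [Field K] : IsSimpleRing (E3 K) := by
  have hne : (⊥ : TwoSidedIdeal (E3 K)) ≠ ⊤ := by
    intro h
    have h1 : (⟨0, 1, 0⟩ : E3 K) ∈ (⊥ : TwoSidedIdeal (E3 K)) := h ▸ TwoSidedIdeal.mem_top _
    have h2 := congrArg E3.q ((TwoSidedIdeal.mem_bot _).1 h1)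
    simp at h2
  have : Nontrivial (TwoSidedIdeal (E3 K)) := ⟨⟨_, _, hne⟩⟩
  refine ⟨⟨fun I => ?_⟩⟩
  by_cases h : ∀ x ∈ I, x = 0
  · left
    exact eq_bot_iff.2 fun x hx => (TwoSidedIdeal.mem_bot _).2 (h x hx)
  · right
    push Not at h
    obtain ⟨x, hx, h0⟩ := h
    by_cases hp : x.p = 0
    · by_cases hq : x.q = 0
      · refine top_of_r I x hx fun hr => h0 ?_
        ext <;> simp [hp, hq, hr]
      · exact top_of_q I x hx hq
    · exact top_of_p I x hx hp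

theorem central (T : CentroidHom (E3 K)) : ∃ c : K, ∀ x, T x = c • x := by
  refine ⟨(T ⟨0, 1, 0⟩).q, fun y => ?_⟩
  have h1 : T ⟨0, 1, 0⟩ = ⟨0, (T ⟨0, 1, 0⟩).q, 0⟩ := by
    have e : (⟨0, 1, 0⟩ : E3 K) = (⟨0, 1, 0⟩ : E3 K) * ⟨0, 0, 1⟩ := by ext <;> simp
    have h := T.map_mul_right' ⟨0, 1, 0⟩ ⟨0, 0, 1⟩
    rw [← e] at h
    have h' : T ⟨0, 1, 0⟩ = T ⟨0, 1, 0⟩ * ⟨0, 0, 1⟩ := h
    ext
    · simpa using congrArg E3.p h'
    · rfl
    · simpa using congrArg E3.r h'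
  have e : y = (⟨0, 1, 0⟩ : E3 K) * ⟨y.p, 0, y.q⟩ + (⟨y.r, 0, 0⟩ : E3 K) * ⟨0, 1, 0⟩ := by
    ext <;> simp
  have h2 : T ((⟨0, 1, 0⟩ : E3 K) * ⟨y.p, 0, y.q⟩) = T ⟨0, 1, 0⟩ * ⟨y.p, 0, y.q⟩ :=
    T.map_mul_right' _ _
  have h3 : T ((⟨y.r, 0, 0⟩ : E3 K) * ⟨0, 1, 0⟩) = ⟨y.r, 0, 0⟩ * T ⟨0, 1, 0⟩ :=
    T.map_mul_left' _ _
  have h4 : T y = T ⟨0, 1, 0⟩ * ⟨y.p, 0, y.q⟩ + ⟨y.r, 0, 0⟩ * T ⟨0, 1, 0⟩ := by
    rw [← h2, ← h3, ← map_add, ← e]
  rw [h4, h1]
  ext <;> simp [mul_comm]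

end E3

/-- Over an infinite field, identities of `E3 K` hold in `E3 S` for each commutative algebra `S`. -/
theorem identity_ext {K : Type u} [Field K] [Infinite K] (f : FreeNonUnitalNonAssocAlgebra K ℕ)
    (hf : ∀ r : ℕ → E3 K, lift K r f = 0) (S : Type u) [CommRing S] [Algebra K S]
    (r : ℕ → E3 S) : lift K r f = 0 := by
  let g : ℕ → E3 (MvPolynomial (ℕ × Fin 3) K) := fun i =>
    ⟨MvPolynomial.X (i, 0), MvPolynomial.X (i, 1), MvPolynomial.X (i, 2)⟩
  have hg : lift K g f = 0 := by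
    have key : ∀ x : ℕ × Fin 3 → K,
        E3.mapHom (MvPolynomial.aeval x : MvPolynomial (ℕ × Fin 3) K →ₐ[K] K) (lift K g f) = 0 := by
      intro x
      rw [hom_lift]
      exact hf _
    apply E3.ext
    · apply MvPolynomial.funext
      intro x
      have := congrArg E3.p (key x)
      simpa [E3.mapHom, MvPolynomial.aeval_eq_eval] using this
    · apply MvPolynomial.funext
      intro x
      have := congrArg E3.q (key x)
      simpa [E3.mapHom, MvPolynomial.aeval_eq_eval] using this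
    · apply MvPolynomial.funext
      intro x
      have := congrArg E3.r (key x)
      simpa [E3.mapHom, MvPolynomial.aeval_eq_eval] using this
  let x : ℕ × Fin 3 → S := fun q => ![(r q.1).p, (r q.1).q, (r q.1).r] q.2
  have h2 := hom_lift
    (E3.mapHom (MvPolynomial.aeval x : MvPolynomial (ℕ × Fin 3) K →ₐ[K] S)) g f
  rw [hg, map_zero] at h2
  have h3 : (E3.mapHom (MvPolynomial.aeval x : MvPolynomial (ℕ × Fin 3) K →ₐ[K] S)) ∘ g = r := by
    funext i
    apply E3.ext <;> simp [E3.mapHom, g, x]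
  rw [h3] at h2
  exact h2.symm

end Pool.Agent.Lib.MP_c03fb1_al.S
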