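import Pool.Agent.Lib.MP_c03fb1_al.OldCentralSimple
import Pool.Agent.Lib.MP_c03fb1_al.OldCommutative

/-! Each of the two hand-ins implies the statement of the earlier hand-in `ThreeDim`. -/

namespace Pool.Agent.Lib.MP_c03fb1_al.S

universe u

theorem threeDim_of_simple (K : Type u) [Field K] [Infinite K] :
    ∃ (R : Type u) (_ : NonUnitalNonAssocRing R) (_ : Module K R) (_ : IsScalarTower K R R)
      (_ : SMulCommClass K R R), Module.finrank K R = 3 ∧ ¬ OldCentralSimple.FinitelyBased K R := by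
  obtain ⟨R, i1, i2, i3, i4, h1, -, -, h2⟩ := OldCentralSimple.result K
  exact ⟨R, i1, i2, i3, i4, h1, h2⟩

theorem threeDim_of_comm (K : Type u) [Field K] [Infinite K] :
    ∃ (R : Type u) (_ : NonUnitalNonAssocRing R) (_ : Module K R) (_ : IsScalarTower K R R)
      (_ : SMulCommClass K R R), Module.finrank K R = 3 ∧ ¬ OldCommutative.FinitelyBased K R := by
  obtain ⟨R, i1, i2, i3, i4, h1, -, h2⟩ := OldCommutative.result K
  exact ⟨R, i1, i2, i3, i4, h1, h2⟩

end Pool.Agent.Lib.MP_c03fb1_al.S
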